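import Pool.Agent.Helper656.SobCore

/-!
# Second order Sobolev and BV maps into `ℝ^d`: the rank of the differential

This file generalises the core of `Pool.Agent.Helper656.SobCore` (maps into `ℝⁿ`) to maps into `ℝ^d` for
every `d`; the proofs are adaptations of the proofs there.
-/

set_option linter.unusedVariables false
set_option linter.unusedSimpArgs false
set_option autoImplicit false

open MeasureTheory Set Filter Topology Metric
open scoped ENNReal ContDiff Convolution

namespace Pool.Agent.Y952.SR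

open Pool.Agent.Helper656.Sob hiding dense_InA core contDiff_minor_aux minors_step det_not_ae_zero main

theorem dense_InA {n d : ℕ} {Ω K : Set (E n)} (hΩ : IsOpen Ω) (V : Fin n → E n → ℝ)
    (f : E n → E d) (hinj : InjOn f Ω) (hf : ∀ i, InA Ω V (fun x => f x i))
    (hK : IsCompact K) (hKΩ : K ⊆ Ω) (φ : E n → ℝ) (hφ : Continuous φ) (δ : ℝ) (hδ : 0 < δ) :
    ∃ u, InA Ω V u ∧ ∀ x ∈ K, |u x - φ x| ≤ δ := by
  have : CompactSpace K := isCompact_iff_compactSpace.mp hK
  let A : Subalgebra ℝ C(K, ℝ) :=
    { carrier := {g | ∃ u, InA Ω V u ∧ ∀ x : K, g x = u x}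
      mul_mem' := by
        rintro g h ⟨u, hu, eu⟩ ⟨v, hv, ev⟩
        exact ⟨_, sw_mul hΩ V hu hv, fun x => by
          show g x * h x = u x * v x
          rw [eu, ev]⟩
      add_mem' := by
        rintro g h ⟨u, hu, eu⟩ ⟨v, hv, ev⟩
        exact ⟨_, sw_add hΩ V hu hv, fun x => by
          show g x + h x = u x + v x
          rw [eu, ev]⟩
      algebraMap_mem' := fun c => ⟨_, sw_const V c, fun x => rfl⟩ }
  have hsep : A.SeparatesPoints := by
    intro x y hxy
    have hne : f x ≠ f y := fun h => hxy (Subtype.ext (hinj (hKΩ x.2) (hKΩ y.2) h))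
    obtain ⟨i, hi⟩ : ∃ i, f x i ≠ f y i := by
      by_contra hcon
      push Not at hcon
      exact hne (by ext i; exact hcon i)
    have hc : Continuous (fun z : K => f z i) :=
      continuousOn_iff_continuous_domRestrict.1 ((hf i).1.mono hKΩ)
    refine ⟨fun z : K => f z i, ⟨⟨fun z : K => f z i, hc⟩, ?_, rfl⟩, hi⟩
    exact ⟨_, hf i, fun z => rfl⟩
  obtain ⟨g, hg⟩ := ContinuousMap.exists_mem_subalgebra_near_continuous_of_separatesPoints A hsep
    (fun x : K => φ x) (hφ.comp continuous_subtype_val) δ hδ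
  obtain ⟨u, hu, eu⟩ := g.2
  refine ⟨u, hu, fun x hx => ?_⟩
  have h1 := hg ⟨x, hx⟩
  have h2 := eu ⟨x, hx⟩
  have h3 : ((g : C(K, ℝ)) : K → ℝ) ⟨x, hx⟩ = u x := h2
  rw [← h3]
  exact h1.le



theorem core {n d : ℕ} {Ω : Set (E n)} (hΩ : IsOpen Ω) (f : E n → E d) (hf : ContinuousOn f Ω)
    (hinj : InjOn f Ω) (G : E n → Matrix (Fin d) (Fin n) ℝ)
    (hG : ∀ i j, LocallyIntegrableOn (fun x => G x i j) Ω)
    (hGw : ∀ i j, IsWeakDeriv Ω j (fun x => f x i) (fun x => G x i j))
    (hBV : ∀ κ, IsTest Ω κ → ∃ C, ∀ i j l, BVBound univ l (fun x => κ x * G x i j) C)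
    (Ψ : Fin n → (Fin d × Fin n → ℝ) → ℝ) (hΨ : ∀ l, ContDiff ℝ ∞ (Ψ l))
    (hΨc : ∀ l, HasCompactSupport (Ψ l))
    (hker : ∀ i, ∀ᵐ x ∂(volume.restrict Ω),
      ∑ l, Ψ l (fun p => G x p.1 p.2) * G x i l = 0) (m : Fin n) :
    ∀ᵐ x ∂(volume.restrict Ω), Ψ m (fun p => G x p.1 p.2) = 0 := by
  classical
  set gg : E n → Fin d × Fin n → ℝ := fun x p => G x p.1 p.2 with hgg
  set V : Fin n → E n → ℝ := fun l x => Ψ l (gg x) with hV
  have hggm : AEStronglyMeasurable gg (volume.restrict Ω) := by
    apply AEMeasurable.aestronglyMeasurable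
    exact aemeasurable_pi_lambda _ (fun p => (hG p.1 p.2).aestronglyMeasurable.aemeasurable)
  have hVm : ∀ l, AEStronglyMeasurable (V l) (volume.restrict Ω) := fun l =>
    (hΨ l).continuous.comp_aestronglyMeasurable hggm
  have hB : ∃ B, ∀ l z, |Ψ l z| ≤ B := by
    have : ∀ l, ∃ B, ∀ z, |Ψ l z| ≤ B := fun l => by
      obtain ⟨B, hB⟩ := (hΨc l).exists_bound_of_continuous (hΨ l).continuous
      exact ⟨B, fun z => by simpa using hB z⟩
    choose B hB using this
    refine ⟨∑ l, |B l|, fun l z => (hB l z).trans ((le_abs_self _).trans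
      (Finset.single_le_sum (f := fun l => |B l|) (fun _ _ => abs_nonneg _) (Finset.mem_univ l)))⟩
  obtain ⟨B, hB⟩ := hB
  have hVloc : ∀ l, LocallyIntegrableOn (V l) Ω := by
    intro l
    refine locallyIntegrableOn_of_locallyIntegrable_restrict ?_
    refine (locallyIntegrable_const B).mono (hVm l) ?_
    refine Filter.Eventually.of_forall (fun x => ?_)
    simp only [Real.norm_eq_abs]
    exact (hB l _).trans (le_abs_self _)
  have hfi : ∀ i : Fin d, ContinuousOn (fun x => f x i) Ω := fun i =>
    (EuclideanSpace.proj (𝕜 := ℝ) i).continuous.comp_continuousOn hf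
  have hfA : ∀ i, InA Ω V (fun x => f x i) := fun i =>
    ⟨hfi i, fun l x => G x i l, fun l => hG i l, fun l => hGw i l, hker i⟩
  rw [ae_restrict_iff' hΩ.measurableSet]
  refine hΩ.ae_eq_zero_of_integral_contDiff_smul_eq_zero (hVloc m) ?_
  intro θ hθ hθc hθΩ
  have hθT : IsTest Ω θ := ⟨hθ, hθc, hθΩ⟩
  obtain ⟨κ, hκ, hκ1, hκb⟩ := exists_cutoff hΩ hθc hθΩ
  obtain ⟨C0, hC0⟩ := hBV κ hκ
  set g : E n → Fin d × Fin n → ℝ := fun x p => κ x * G x p.1 p.2 with hg
  have hgint : ∀ p, Integrable (fun x => g x p) := fun p =>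
    integrable_test_mul hκ.1.continuous hκ.2.1 hκ.2.2 (hG p.1 p.2)
  have hgm : AEStronglyMeasurable g volume := by
    apply AEMeasurable.aestronglyMeasurable
    exact aemeasurable_pi_lambda _ (fun p => (hgint p).aestronglyMeasurable.aemeasurable)
  have hch : ∀ l, ∃ C', BVBound univ l (fun x => Ψ l (g x)) C' := fun l =>
    chain_bound g hgint l C0 (fun p => hC0 p.1 p.2 l) (Ψ l) (hΨ l) (hΨc l)
  choose C' hC' using hch
  have hWm : ∀ l, AEStronglyMeasurable (fun x => Ψ l (g x)) volume := fun l =>
    (hΨ l).continuous.comp_aestronglyMeasurable hgm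
  obtain ⟨T, hT⟩ : ∃ T, ∀ x, |θ x| ≤ T := by
    obtain ⟨T, hT⟩ := hθc.exists_bound_of_continuous hθ.continuous
    exact ⟨T, fun z => by simpa using hT z⟩
  set D : ℝ := ∑ l, C' l * T + ∑ l, ∫ x, B * |pd l θ x| with hD
  have hpdθc : ∀ l, Continuous (pd l θ) := fun l => (pd_smooth l hθ).continuous
  have hpdθs : ∀ l, HasCompactSupport (pd l θ) := fun l => pd_hasCompactSupport l hθc
  have key : ∀ δ > 0, |∫ x, θ x * V m x| ≤ δ * D := by
    intro δ hδ
    obtain ⟨u, ⟨huc, w, hwl, hww, hwV⟩, huδ⟩ := dense_InA hΩ V f hinj hfA hθc hθΩ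
      (fun x => x m) (EuclideanSpace.proj (𝕜 := ℝ) m).continuous δ hδ
    set v : E n → ℝ := fun x => x m - u x with hv
    have hvc : ContinuousOn v Ω :=
      ((EuclideanSpace.proj (𝕜 := ℝ) m).continuous.continuousOn).sub huc
    have hpdx : ∀ l (x : E n), pd l (fun y : E n => y m) x = if l = m then 1 else 0 := by
      intro l x
      have : fderiv ℝ (fun y : E n => y m) x = (EuclideanSpace.proj (𝕜 := ℝ) m) :=
        (EuclideanSpace.proj (𝕜 := ℝ) m : E n →L[ℝ] ℝ).fderiv
      simp only [pd, this]
      simp [eq_comm]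
    have hxsm : ContDiff ℝ ∞ (fun y : E n => y m) :=
      (EuclideanSpace.proj (𝕜 := ℝ) m : E n →L[ℝ] ℝ).contDiff
    set wv : Fin n → E n → ℝ := fun l x => (if l = m then 1 else 0) - w l x with hwv
    have hwvl : ∀ l, LocallyIntegrableOn (wv l) Ω := fun l =>
      (locallyIntegrableOn_const _).sub (hwl l)
    have hvweak : ∀ l, IsWeakDeriv Ω l v (wv l) := by
      intro l χ hχ
      have h1 : ∫ x : E n, x m * pd l χ x = - ∫ x, (if l = m then 1 else 0) * χ x := by
        have := integral_pd_mul l (φ := fun y : E n => y m) (ψ := χ) (hxsm.of_le (by simp))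
          (hχ.1.of_le (by simp)) hχ.2.1
        rw [this]
        congr 1
        refine integral_congr_ae (Filter.Eventually.of_forall fun x => ?_)
        simp only [hpdx]; ring
      have h2 := hww l χ hχ
      have hi1 : Integrable (fun x : E n => x m * pd l χ x) := by
        refine Continuous.integrable_of_hasCompactSupport ?_ ?_
        · exact (EuclideanSpace.proj (𝕜 := ℝ) m).continuous.mul (pd_smooth l hχ.1).continuous
        · exact (pd_hasCompactSupport l hχ.2.1).mul_left
      have hi2 : Integrable (fun x : E n => u x * pd l χ x) := by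
        have := integrable_test_mul (pd_smooth l hχ.1).continuous (pd_hasCompactSupport l hχ.2.1)
          ((pd_support l χ).trans hχ.2.2) (huc.locallyIntegrableOn (μ := volume) hΩ.measurableSet)
        exact this.congr (Filter.Eventually.of_forall fun x => mul_comm _ _)
      have hi3 : Integrable (fun x : E n => (if l = m then (1:ℝ) else 0) * χ x) :=
        (hχ.1.continuous.integrable_of_hasCompactSupport hχ.2.1).const_mul _
      have hi4 : Integrable (fun x : E n => w l x * χ x) := by
        have := integrable_test_mul hχ.1.continuous hχ.2.1 hχ.2.2 (hwl l)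
        exact this.congr (Filter.Eventually.of_forall fun x => mul_comm _ _)
      have e1 : ∫ x, v x * pd l χ x = (∫ x : E n, x m * pd l χ x) - ∫ x, u x * pd l χ x := by
        rw [← integral_sub hi1 hi2]
        refine integral_congr_ae (Filter.Eventually.of_forall fun x => ?_)
        simp only [hv]; ring
      have e2 : ∫ x, wv l x * χ x = (∫ x : E n, (if l = m then (1:ℝ) else 0) * χ x) -
          ∫ x, w l x * χ x := by
        rw [← integral_sub hi3 hi4]
        refine integral_congr_ae (Filter.Eventually.of_forall fun x => ?_)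
        simp only [hwv]; ring
      rw [e1, e2, h1, h2]; ring
    have hvl : LocallyIntegrableOn v Ω := hvc.locallyIntegrableOn hΩ.measurableSet
    set w' : Fin n → E n → ℝ := fun l x => θ x * wv l x + v x * pd l θ x with hw'
    have hloc : ∀ l, IsWeakDeriv univ l (fun x => θ x * v x) (w' l) := fun l =>
      localize hΩ l hθT hvl (hwvl l) (hvweak l)
    have hi5 : ∀ l, Integrable (fun x => θ x * wv l x) := fun l =>
      integrable_test_mul hθ.continuous hθc hθΩ (hwvl l)
    have hi6 : ∀ l, Integrable (fun x => v x * pd l θ x) := fun l => by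
      have := integrable_test_mul (hpdθc l) (hpdθs l) ((pd_support l θ).trans hθΩ) hvl
      exact this.congr (Filter.Eventually.of_forall fun x => mul_comm _ _)
    have hw'i : ∀ l, Integrable (w' l) := fun l => (hi5 l).add (hi6 l)
    have hζc : Continuous (fun x => θ x * v x) := by
      rw [continuous_iff_continuousAt]
      intro x
      by_cases hx : x ∈ tsupport θ
      · exact hθ.continuous.continuousAt.mul (hvc.continuousAt (hΩ.mem_nhds (hθΩ hx)))
      · have : (fun x => θ x * v x) =ᶠ[𝓝 x] fun _ => (0:ℝ) := by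
          filter_upwards [(isClosed_tsupport θ).isOpen_compl.mem_nhds hx] with y hy
          have : θ y = 0 := image_eq_zero_of_notMem_tsupport hy
          simp [this]
        exact this.continuousAt
    have hζs : HasCompactSupport (fun x => θ x * v x) := hθc.mul_right
    have hT0 : 0 ≤ T := (abs_nonneg _).trans (hT 0)
    have hζb : ∀ x, |θ x * v x| ≤ δ * T := by
      intro x
      by_cases hx : x ∈ tsupport θ
      · rw [abs_mul, mul_comm]
        refine mul_le_mul ?_ (hT x) (abs_nonneg _) hδ.le
        rw [hv]; simp only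
        rw [abs_sub_comm]; exact huδ x hx
      · have : θ x = 0 := image_eq_zero_of_notMem_tsupport hx
        simp only [this, zero_mul, abs_zero]; positivity
    have hbd : ∀ l, |∫ x, Ψ l (g x) * w' l x| ≤ C' l * (δ * T) := fun l =>
      bound_extend l (fun x => Ψ l (g x)) (hWm l) B (fun x => hB l _) (C' l) (hC' l)
        _ hζc hζs (w' l) (hw'i l) (hloc l) _ hζb
    have heq : ∀ l x, Ψ l (g x) * w' l x = V l x * w' l x := by
      intro l x
      by_cases hx : x ∈ tsupport θ
      · have h1 : κ x = 1 := hκ1.self_of_nhdsSet x hx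
        simp only [hV, hg, hgg, h1, one_mul]
      · have h0 : θ x = 0 := image_eq_zero_of_notMem_tsupport hx
        have h1 : pd l θ x = 0 := image_eq_zero_of_notMem_tsupport (fun h => hx (pd_support l θ h))
        simp [hw', h0, h1]
    -- the pointwise identity
    have hid : ∀ᵐ x, θ x * V m x = (∑ l, V l x * w' l x) - ∑ l, v x * (V l x * pd l θ x) := by
      have h0 := (ae_restrict_iff' hΩ.measurableSet).1 hwV
      filter_upwards [h0] with x hx
      by_cases hxΩ : x ∈ Ω
      · have hx' := hx hxΩ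
        have : ∑ l, V l x * w' l x = θ x * (∑ l, V l x * (if l = m then 1 else 0)) -
            θ x * (∑ l, V l x * w l x) + ∑ l, v x * (V l x * pd l θ x) := by
          rw [Finset.mul_sum, Finset.mul_sum, ← Finset.sum_sub_distrib, ← Finset.sum_add_distrib]
          refine Finset.sum_congr rfl (fun l _ => ?_)
          simp only [hw', hwv]; ring
        rw [this, hx']
        simp
      · have h0 : θ x = 0 := image_eq_zero_of_notMem_tsupport (fun h => hxΩ (hθΩ h))
        have h1 : ∀ l, pd l θ x = 0 := fun l =>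
          image_eq_zero_of_notMem_tsupport (fun h => hxΩ (hθΩ (pd_support l θ h)))
        simp [hw', h0, h1]
    have hVw : ∀ l, Integrable (fun x => V l x * w' l x) := by
      intro l
      have : Integrable (fun x => Ψ l (g x) * w' l x) :=
        (hw'i l).bdd_mul (hWm l) (Filter.Eventually.of_forall fun x => by simpa using hB l (g x))
      exact this.congr (Filter.Eventually.of_forall fun x => heq l x)
    have heq2 : ∀ l x, v x * (Ψ l (g x) * pd l θ x) = v x * (V l x * pd l θ x) := by
      intro l x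
      by_cases hx : x ∈ tsupport θ
      · have h1 : κ x = 1 := hκ1.self_of_nhdsSet x hx
        simp only [hV, hg, hgg, h1, one_mul]
      · have h1 : pd l θ x = 0 := image_eq_zero_of_notMem_tsupport (fun h => hx (pd_support l θ h))
        simp [h1]
    have hVp : ∀ l, Integrable (fun x => v x * (V l x * pd l θ x)) := by
      intro l
      have : Integrable (fun x => Ψ l (g x) * (v x * pd l θ x)) :=
        (hi6 l).bdd_mul (hWm l) (Filter.Eventually.of_forall fun x => by simpa using hB l (g x))
      refine this.congr (Filter.Eventually.of_forall fun x => ?_)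
      simp only
      rw [← heq2 l x]; ring
    have hint : ∫ x, θ x * V m x = (∑ l, ∫ x, V l x * w' l x) -
        ∑ l, ∫ x, v x * (V l x * pd l θ x) := by
      rw [integral_congr_ae hid, integral_sub (integrable_finsetSum _ fun l _ => hVw l)
        (integrable_finsetSum _ fun l _ => hVp l), integral_finsetSum _ (fun l _ => hVw l),
        integral_finsetSum _ (fun l _ => hVp l)]
    have hb1 : |∑ l, ∫ x, V l x * w' l x| ≤ δ * ∑ l, C' l * T := by
      refine (Finset.abs_sum_le_sum_abs _ _).trans ?_
      rw [Finset.mul_sum]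
      refine Finset.sum_le_sum fun l _ => ?_
      have : ∫ x, V l x * w' l x = ∫ x, Ψ l (g x) * w' l x :=
        integral_congr_ae (Filter.Eventually.of_forall fun x => (heq l x).symm)
      rw [this]
      refine (hbd l).trans (le_of_eq (by ring))
    have hb2 : |∑ l, ∫ x, v x * (V l x * pd l θ x)| ≤ δ * ∑ l, ∫ x, B * |pd l θ x| := by
      refine (Finset.abs_sum_le_sum_abs _ _).trans ?_
      rw [Finset.mul_sum]
      refine Finset.sum_le_sum fun l _ => ?_
      rw [← integral_const_mul]
      refine (abs_integral_le_integral_abs).trans ?_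
      refine integral_mono (hVp l).abs ?_ ?_
      · exact (((hpdθc l).integrable_of_hasCompactSupport (hpdθs l)).abs.const_mul B).const_mul δ
      · intro x
        simp only
        by_cases hx : x ∈ tsupport θ
        · rw [abs_mul, abs_mul]
          have h1 : |v x| ≤ δ := by
            rw [hv]; simp only
            rw [abs_sub_comm]; exact huδ x hx
          have h2 : |V l x| ≤ B := hB l _
          have h3 : 0 ≤ B := (abs_nonneg _).trans h2
          gcongr
        · have h1 : pd l θ x = 0 :=
            image_eq_zero_of_notMem_tsupport (fun h => hx (pd_support l θ h))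
          simp [h1]
    rw [hint, hD, mul_add]
    exact (abs_sub _ _).trans (add_le_add hb1 hb2)
  have hD0 : 0 ≤ D := by
    have := key 1 one_pos
    have h2 := abs_nonneg (∫ x, θ x * V m x)
    linarith
  have hz : |∫ x, θ x * V m x| ≤ 0 := by
    refine le_of_forall_pos_le_add (fun ε hε => ?_)
    have := key (ε / (D + 1)) (by positivity)
    refine this.trans ?_
    rw [zero_add, div_mul_eq_mul_div, div_le_iff₀ (by positivity)]
    nlinarith
  simpa using hz






lemma contDiff_minor_aux {n d k : ℕ} (r : Fin k → Fin d) (c : Fin k → Fin n) :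
    ContDiff ℝ ∞ (fun M : Fin d × Fin n → ℝ =>
      ((Matrix.of (fun a b => M (a, b))).submatrix r c).det) := by
  simp only [Matrix.det_apply']
  apply ContDiff.sum
  intro σ _
  apply ContDiff.mul contDiff_const
  apply contDiff_prod
  intro i _
  simp only [Matrix.submatrix_apply, Matrix.of_apply]
  exact contDiff_apply ℝ ℝ _

theorem minors_step {n d : ℕ} {Ω : Set (E n)} (G : E n → Matrix (Fin d) (Fin n) ℝ)
    (hcore : ∀ Ψ : Fin n → (Fin d × Fin n → ℝ) → ℝ, (∀ l, ContDiff ℝ ∞ (Ψ l)) →
      (∀ l, HasCompactSupport (Ψ l)) →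
      (∀ i, ∀ᵐ x ∂(volume.restrict Ω), ∑ l, Ψ l (fun p => G x p.1 p.2) * G x i l = 0) →
      ∀ m, ∀ᵐ x ∂(volume.restrict Ω), Ψ m (fun p => G x p.1 p.2) = 0)
    (k : ℕ) (hk : k < n)
    (hmin : ∀ (r : Fin (k + 1) → Fin d) (c : Fin (k + 1) → Fin n), ∀ᵐ x ∂(volume.restrict Ω),
      ((G x).submatrix r c).det = 0) :
    ∀ (r : Fin k → Fin d) (c : Fin k → Fin n), ∀ᵐ x ∂(volume.restrict Ω), ((G x).submatrix r c).det = 0 := by
  intro r c
  obtain ⟨j, hj⟩ : ∃ j : Fin n, ∀ s, c s ≠ j := by
    by_contra hcon
    push Not at hcon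
    have hs : Function.Surjective c := fun j => hcon j
    have := Fintype.card_le_of_surjective c hs
    simp at this
    omega
  set c' : Fin (k + 1) → Fin n := Fin.cons j c with hc'
  let χ : ℕ → ContDiffBump (0 : Fin d × Fin n → ℝ) := fun R =>
    { rIn := (R : ℝ) + 1
      rOut := (R : ℝ) + 2
      rIn_pos := by positivity
      rIn_lt_rOut := by linarith }
  let D : Fin (k + 1) → (Fin d × Fin n → ℝ) → ℝ := fun s M =>
    ((Matrix.of (fun a b => M (a, b))).submatrix r (c' ∘ s.succAbove)).det
  let Ψ : ℕ → Fin n → (Fin d × Fin n → ℝ) → ℝ := fun R l M =>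
    χ R M * ∑ s : Fin (k + 1), (if c' s = l then (-1 : ℝ) ^ (s : ℕ) * D s M else 0)
  have hsmooth : ∀ R l, ContDiff ℝ ∞ (Ψ R l) := by
    intro R l
    apply ContDiff.mul (χ R).contDiff
    apply ContDiff.sum
    intro s _
    by_cases h : c' s = l
    · simp only [h, if_true]
      exact contDiff_const.mul (contDiff_minor_aux _ _)
    · simp only [h, if_false]
      exact contDiff_const
  have hsupp : ∀ R l, HasCompactSupport (Ψ R l) := by
    intro R l
    exact (χ R).hasCompactSupport.mul_right
  have hzero : ∀ R, ∀ i, ∀ᵐ x ∂(volume.restrict Ω),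
      ∑ l, Ψ R l (fun p => G x p.1 p.2) * G x i l = 0 := by
    intro R i
    filter_upwards [hmin (Fin.cons i r) c'] with x hx
    rw [Matrix.det_succ_row_zero] at hx
    have e1 : ∑ l, Ψ R l (fun p => G x p.1 p.2) * G x i l
        = χ R (fun p => G x p.1 p.2) * ∑ s : Fin (k + 1),
          (-1 : ℝ) ^ (s : ℕ) * G x i (c' s) * D s (fun p => G x p.1 p.2) := by
      simp only [Ψ, Finset.mul_sum, Finset.sum_mul]
      rw [Finset.sum_comm]
      apply Finset.sum_congr rfl
      intro s _
      rw [Finset.sum_eq_single (c' s)]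
      · simp; ring
      · intro l _ hl
        simp [hl.symm]
      · intro h; exact absurd (Finset.mem_univ _) h
    rw [e1]
    have e2 : ∑ s : Fin (k + 1),
          (-1 : ℝ) ^ (s : ℕ) * G x i (c' s) * D s (fun p => G x p.1 p.2) = 0 := by
      rw [← hx]
      apply Finset.sum_congr rfl
      intro s _
      congr 1
    rw [e2, mul_zero]
  have hall : ∀ᵐ x ∂(volume.restrict Ω), ∀ R : ℕ, Ψ R j (fun p => G x p.1 p.2) = 0 := by
    rw [ae_all_iff]
    intro R
    exact hcore (Ψ R) (hsmooth R) (hsupp R) (hzero R) j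
  filter_upwards [hall] with x hx
  obtain ⟨R, hR⟩ := exists_nat_ge ‖(fun p : Fin d × Fin n => G x p.1 p.2)‖
  have h1 := hx R
  have hχ : χ R (fun p => G x p.1 p.2) = 1 := by
    apply (χ R).one_of_mem_closedBall
    rw [mem_closedBall, dist_zero_right]
    show _ ≤ (R : ℝ) + 1
    linarith
  simp only [Ψ, hχ, one_mul] at h1
  rw [Finset.sum_eq_single 0] at h1
  · simp only [hc', D, Function.comp_def, Fin.cons_succ, Fin.cons_zero, Fin.succAbove_zero,
      if_true, Fin.val_zero, pow_zero, one_mul] at h1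
    exact h1
  · intro s _ hs
    obtain ⟨t, rfl⟩ := Fin.exists_succ_eq.mpr hs
    have : c' t.succ ≠ j := by simpa [hc'] using hj t
    simp [this]
  · intro h; exact absurd (Finset.mem_univ _) h

theorem rank_sub {n d : ℕ} (A : Matrix (Fin d) (Fin n) ℝ) (h : A.rank < n) (r : Fin n → Fin d)
    (c : Fin n → Fin n) : (A.submatrix r c).det = 0 := by
  have e1 : A.submatrix r c = (A.submatrix r id) *
      ((1 : Matrix (Fin n) (Fin n) ℝ).submatrix id c) := by
    ext a b
    simp [Matrix.mul_apply, Matrix.one_apply]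
  have e2 : A.submatrix r id = ((1 : Matrix (Fin d) (Fin d) ℝ).submatrix r id) * A := by
    ext a b
    simp [Matrix.mul_apply, Matrix.one_apply]
  have h1 : (A.submatrix r id).rank < n := by
    rw [e2]
    exact (Matrix.rank_mul_le_right _ _).trans_lt h
  have h2 : (A.submatrix r id).det = 0 := by
    by_contra hne
    have hu : IsUnit (A.submatrix r id) := by
      rw [Matrix.isUnit_iff_isUnit_det]
      exact isUnit_iff_ne_zero.2 hne
    have := Matrix.rank_of_isUnit _ hu
    rw [Fintype.card_fin] at this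
    omega
  rw [e1, Matrix.det_mul, h2, zero_mul]

theorem rank_not_ae_lt {n d : ℕ} {Ω : Set (E n)} (hΩ : IsOpen Ω) (hne : Ω.Nonempty)
    (G : E n → Matrix (Fin d) (Fin n) ℝ)
    (hcore : ∀ Ψ : Fin n → (Fin d × Fin n → ℝ) → ℝ, (∀ l, ContDiff ℝ ∞ (Ψ l)) →
      (∀ l, HasCompactSupport (Ψ l)) →
      (∀ i, ∀ᵐ x ∂(volume.restrict Ω), ∑ l, Ψ l (fun p => G x p.1 p.2) * G x i l = 0) →
      ∀ m, ∀ᵐ x ∂(volume.restrict Ω), Ψ m (fun p => G x p.1 p.2) = 0) :
    ¬ ∀ᵐ x ∂(volume.restrict Ω), (G x).rank < n := by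
  intro h0
  have hstart : ∀ (r : Fin n → Fin d) (c : Fin n → Fin n), ∀ᵐ x ∂(volume.restrict Ω),
      ((G x).submatrix r c).det = 0 := by
    intro r c
    filter_upwards [h0] with x hx
    exact rank_sub (G x) hx r c
  have hdown : ∀ m, m ≤ n → ∀ (r : Fin (n - m) → Fin d) (c : Fin (n - m) → Fin n),
      ∀ᵐ x ∂(volume.restrict Ω), ((G x).submatrix r c).det = 0 := by
    intro m
    induction m with
    | zero => intro _; simpa using hstart
    | succ m ih =>
      intro hm
      have hm' := ih (by omega)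
      have e : n - m = (n - (m + 1)) + 1 := by omega
      rw [e] at hm'
      exact minors_step G hcore (n - (m + 1)) (by omega) hm'
  have hfin := hdown n le_rfl
  have e : n - n = 0 := by omega
  rw [e] at hfin
  have h1 := hfin Fin.elim0 Fin.elim0
  simp only [Matrix.det_isEmpty, one_ne_zero] at h1
  have h2 : volume.restrict Ω = 0 := by
    have : (∀ᵐ x ∂(volume.restrict Ω), False) := h1
    rwa [Filter.eventually_false_iff_eq_bot, ae_eq_bot] at this
  rw [Measure.restrict_eq_zero] at h2
  exact (hΩ.measure_pos volume hne).ne' h2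

/-- Key theorem. -/
theorem main {n d : ℕ} {Ω : Set (E n)} (hΩ : IsOpen Ω) (hne : Ω.Nonempty) (f : E n → E d)
    (hf : ContinuousOn f Ω)
    (hinj : InjOn f Ω) (G : E n → Matrix (Fin d) (Fin n) ℝ)
    (hG : ∀ i j, LocallyIntegrableOn (fun x => G x i j) Ω)
    (hGw : ∀ i j, IsWeakDeriv Ω j (fun x => f x i) (fun x => G x i j))
    (hBV : ∀ κ, IsTest Ω κ → ∃ C, ∀ i j l, BVBound univ l (fun x => κ x * G x i j) C) :
    0 < volume {x | x ∈ Ω ∧ (G x).rank = n} := by
  by_contra hcon
  have h0 : volume {x | x ∈ Ω ∧ (G x).rank = n} = 0 := by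
    simpa using hcon
  refine rank_not_ae_lt hΩ hne G
    (fun Ψ h1 h2 h3 m => core hΩ f hf hinj G hG hGw hBV Ψ h1 h2 h3 m) ?_
  rw [ae_restrict_iff' hΩ.measurableSet, ae_iff]
  refine measure_mono_null ?_ h0
  intro x hx
  simp only [mem_setOf_eq, Classical.not_imp, not_lt] at hx
  refine ⟨hx.1, le_antisymm ?_ hx.2⟩
  have := (G x).rank_le_width
  simpa using this

end Pool.Agent.Y952.SR
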